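import Pool.Agent.Helper35.SL.Stm

/-! The base: pairs `(z i, w i)` with linear forms `z i`. -/

set_option autoImplicit false

namespace Pool.Agent.Helper35.SL

open Pool.Agent.Helper35.EM Pool.Agent.Helper56.EM Pool.Agent.Helper35.GF Set Module Submodule

open Pool.Agent.Helper56.SA (kk kk_mem kk_le Tw Nb BK)

theorem kspan_cl {s : Set ℂ} {v : ℂ} (hv : v ∈ span kk s) : v ∈ M.closure s := by
  induction hv using Submodule.span_induction with
  | mem v hv => exact cl_self hv
  | zero => exact cl_zero _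
  | add v w _ _ hv hw => exact cl_add hv hw
  | smul q v _ hv => exact Pool.Agent.Helper56.SA.smul_cl q hv

/-- independent elements of the `kk`-space of an algebraically independent set -/
theorem indep_of_kspan {B : Set ℂ} (hB : B.Finite) (hI : M.Indep B) {q : ℕ} {u : Fin q → ℂ}
    (hu : LinearIndependent kk u) (hs : ∀ i, u i ∈ span kk B) : AlgebraicIndependent ℚ u := by
  obtain ⟨C, h2, h1, h3, h4⟩ := exists_linearIndepOn_id_extension (K := kk) (s := range u)
    (t := range u ∪ B) ((linearIndepOn_id_range_iff hu.injective).2 hu) subset_union_left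
  have hCfin : C.Finite := ((finite_range u).union hB).subset h2
  have hCs : span kk C ≤ span kk B := by
    rw [span_le]
    intro v hv
    rcases h2 hv with ⟨i, rfl⟩ | hv
    · exact hs i
    · exact subset_span hv
  have hcard : C.encard ≤ B.encard := by
    have hf : FiniteDimensional kk (span kk B) := FiniteDimensional.span_of_finite kk hB
    have := hCfin.fintype
    have := hB.fintype
    have e1 : finrank kk (span kk C) = C.toFinset.card := finrank_span_set_eq_card h4
    have e2 : finrank kk (span kk B) ≤ B.toFinset.card := finrank_span_le_card B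
    have e3 := Submodule.finrank_mono hCs
    rw [encard_eq_coe_toFinset_card, encard_eq_coe_toFinset_card]
    exact_mod_cast e1 ▸ e3.trans e2
  have hCI : M.Indep C := by
    rw [Matroid.indep_iff_eRk_eq_encard_of_finite hCfin]
    refine le_antisymm (M.eRk_le_encard _) (hcard.trans ?_)
    rw [← hI.eRk_eq_encard, ← M.eRk_closure_eq C]
    apply M.eRk_mono
    intro v hv
    exact kspan_cl (h3 (Or.inr hv))
  exact (algebraicIndependent_subtype_range hu.injective).1 (hCI.subset h1)

/-- independent linear forms in algebraically independent numbers -/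
theorem forms_indep {R k : ℕ} {s : Fin R → ℂ} (hs : AlgebraicIndependent ℚ s)
    {A : Fin k → Fin R → ℂ} (hA : ∀ a j, A a j ∈ M.closure ∅) (hli : LinearIndependent ℂ A) :
    AlgebraicIndependent ℚ fun a => ∑ j, A a j * s j := by
  have hI : M.Indep (range s) := (algebraicIndependent_subtype_range hs.injective).2 hs
  refine indep_of_kspan (finite_range s) hI ?_ fun a => ?_
  · rw [Fintype.linearIndependent_iff]
    intro g hg
    have h1 : (0 : ℂ) + ∑ j, (∑ a, (g a : ℂ) * A a j) * s j = 0 := by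
      rw [zero_add, ← hg]
      have e : ∀ a, g a • ∑ j, A a j * s j = ∑ j, (g a : ℂ) * A a j * s j := by
        intro a
        rw [Algebra.smul_def, Finset.mul_sum]
        exact Finset.sum_congr rfl fun j _ => by
          show (g a : ℂ) * (A a j * s j) = _
          ring
      rw [Finset.sum_congr rfl fun a _ => e a, Finset.sum_comm]
      exact Finset.sum_congr rfl fun j _ => Finset.sum_mul _ _ _
    have h2 := indepWithOne_of hs 0 (fun j => ∑ a, (g a : ℂ) * A a j) isAlgebraic_zero
      (fun j => mem_cl_empty.1 (cl_sum _ _ fun a _ => cl_mul (kk_mem.1 (g a).2) (hA a j))) h1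
    have h3 := Fintype.linearIndependent_iff.1 hli (fun a => (g a : ℂ)) (by
      funext j
      have := h2.2 j
      simpa [Finset.sum_apply] using this)
    intro a
    exact Subtype.ext (h3 a)
  · refine Submodule.sum_mem _ fun j _ => ?_
    have : A a j * s j = (⟨A a j, kk_mem.2 (hA a j)⟩ : kk) • s j := by
      rw [Algebra.smul_def]; rfl
    rw [this]
    exact Submodule.smul_mem _ _ (subset_span ⟨j, rfl⟩)

/-- the base and its properties -/
structure Bas (N : ℕ) (r : ℕ → ℕ) (s : Fin (r N) → ℂ) (z w : Fin N → ℂ) : Prop where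
  si : AlgebraicIndependent ℚ s
  z_mem : ∀ i : Fin N, z i ∈ M.closure (s '' {j | (j : ℕ) < r ((i : ℕ) + 1)})
  w_mem : ∀ i : Fin N, Complex.exp (w i) ∈ M.closure (s '' {j | (j : ℕ) < 1})
  mi : ∀ q : Fin N → ℚ, Complex.exp (∑ i, (q i : ℂ) * w i) ∈ M.closure ∅ → q = 0
  rk : ∀ U : Submodule ℚ (Fin N → ℚ), (r (finrank ℚ U) : ℕ∞) ≤
    M.eRk {c | ∃ q ∈ U, c = ∑ i, (q i : ℂ) * z i}
  tr : ∀ q : Fin N → ℚ, ∑ i, (q i : ℂ) * z i ∈ M.closure ∅ → q = 0

theorem exists_bas (hMX : S_MX) (hMI : S_MI) (N : ℕ) (r : ℕ → ℕ) (h0 : r 0 = 0) (h1 : r 1 = 1)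
    (hr : ∀ d, r d ≤ r (d + 1) ∧ r (d + 1) ≤ r d + 1) (hN : 1 ≤ N)
    {s : Fin (r N) → ℂ} (hs : AlgebraicIndependent ℚ s) :
    ∃ z w : Fin N → ℂ, Bas N r s z w := by
  have hmono : Monotone r := monotone_nat_of_le_succ fun d => (hr d).1
  have hR : 0 < r N := lt_of_lt_of_le (by rw [h1]; exact one_pos) (hmono hN)
  obtain ⟨V, hVa, hV0, hV⟩ := hMX N r h0 hr
  have hVa' : ∀ i j, V i j ∈ M.closure ∅ := fun i j => mem_cl_empty.2 (hVa i j)
  have hI : M.Indep (range s) := (algebraicIndependent_subtype_range hs.injective).2 hs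
  have hs0 : s ⟨0, hR⟩ ∉ M.closure ∅ := by
    intro h
    exact hI.notMem_closure_sdiff_of_mem (mem_range_self ⟨0, hR⟩) (cl_empty_le h)
  obtain ⟨w, hw, hmi⟩ := hMI N _ hs0
  set z : Fin N → ℂ := fun i => ∑ j, V i j * s j with hz
  have hform : ∀ q : Fin N → ℚ, ∑ i, (q i : ℂ) * z i = ∑ j, (∑ i, (q i : ℂ) * V i j) * s j := by
    intro q
    simp only [hz, Finset.mul_sum]
    rw [Finset.sum_comm]
    refine Finset.sum_congr rfl fun j _ => ?_
    rw [Finset.sum_mul]
    exact Finset.sum_congr rfl fun i _ => by ring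
  have hrk : ∀ U : Submodule ℚ (Fin N → ℚ), (r (finrank ℚ U) : ℕ∞) ≤
      M.eRk {c | ∃ q ∈ U, c = ∑ i, (q i : ℂ) * z i} := by
    intro U
    obtain ⟨u, hu, hli⟩ := hV U
    have h2 := forms_indep hs (A := fun a j => ∑ i, ((u a i : ℚ) : ℂ) * V i j)
      (fun a j => cl_sum _ _ fun i _ => cl_mul (cl_ratCast _ _) (hVa' i j)) hli
    rw [← rk_range h2]
    apply M.eRk_mono
    rintro _ ⟨a, rfl⟩
    exact ⟨u a, hu a, (hform (u a)).symm⟩
  refine ⟨z, w, hs, fun i => ?_, fun i => ?_, hmi, hrk, fun q hq => ?_⟩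
  · refine cl_sum _ _ fun j _ => ?_
    by_cases h : (j : ℕ) < r ((i : ℕ) + 1)
    · exact cl_mul (cl_empty_le (hVa' i j)) (cl_self ⟨j, h, rfl⟩)
    · rw [hV0 i j (not_lt.1 h), zero_mul]; exact cl_zero _
  · refine cl_mono ?_ (hw i)
    rintro _ rfl
    exact ⟨⟨0, hR⟩, by show 0 < 1; exact one_pos, rfl⟩
  · by_contra hne
    have h2 := hrk (span ℚ {q})
    rw [finrank_span_singleton hne, h1] at h2
    have h3 : M.eRk {c | ∃ q' ∈ span ℚ {q}, c = ∑ i, (q' i : ℂ) * z i} ≤ M.eRk (M.closure ∅) := by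
      apply M.eRk_mono
      rintro _ ⟨q', hq', rfl⟩
      obtain ⟨a, rfl⟩ := Submodule.mem_span_singleton.1 hq'
      have e : ∑ i, ((a • q) i : ℂ) * z i = (a : ℂ) * ∑ i, (q i : ℂ) * z i := by
        rw [Finset.mul_sum]
        refine Finset.sum_congr rfl fun i _ => ?_
        simp only [Pi.smul_apply, smul_eq_mul, Rat.cast_mul]
        ring
      rw [e]
      exact cl_mul (cl_ratCast _ _) hq
    rw [M.eRk_closure_eq, M.eRk_empty] at h3
    have h4 := h2.trans h3
    simp at h4

end Pool.Agent.Helper35.SL
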