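import Pool.Agent.Helper35.GF.Defs

/-! Instances of Schanuel's conjecture in an exponential field. -/

set_option autoImplicit false

namespace Pool.Agent.Helper35.SL

open Pool.Agent.Helper35.GF Set

/-- The instance `(n, k)` of Schanuel's conjecture with defect: the transcendence degree of
`ℚ(z, E z)` is at least `n - k` for all rationally independent `z 1, ..., z n` in the field. -/
def Sch (F : ExpField) (n k : ℕ) : Prop :=
  ∀ z : Fin n → ℂ, (∀ i, z i ∈ F.K) → LinearIndependent ℚ z →
    (n : Cardinal) ≤ Algebra.trdeg ℚ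
      (IntermediateField.adjoin ℚ (range z ∪ range fun i => F.E (z i))) + (k : Cardinal)

/-- functions with `δ 0 = δ 1 = 0` which grow in steps of at most one -/
def Adm (δ : ℕ → ℕ) : Prop := δ 0 = 0 ∧ δ 1 = 0 ∧ ∀ n, δ n ≤ δ (n + 1) ∧ δ (n + 1) ≤ δ n + 1

/-- Gel'fond's conjecture for the field: exponentials of rationally independent algebraic numbers and
rationally independent logarithms of algebraic numbers are together algebraically independent. -/
def Gelfond (F : ExpField) : Prop :=
  ∀ (n m : ℕ) (α : Fin n → ℂ) (u : Fin m → ℂ), (∀ i, IsAlgebraic ℚ (α i)) → (∀ j, IsLog F (u j)) →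
    LinearIndependent ℚ α → LinearIndependent ℚ u →
      AlgebraicIndependent ℚ (Fin.append (fun i => F.E (α i)) u)

/-- the kernel is `2 π i ℤ` -/
def TruePi (F : ExpField) : Prop :=
  2 * (Real.pi : ℂ) * Complex.I ∈ F.K ∧
    ∀ x ∈ F.K, F.E x = 1 ↔ ∃ n : ℤ, x = n * (2 * (Real.pi : ℂ) * Complex.I)

/-- the question: Schanuel's conjecture -/
def Schanuel : Prop :=
  ∀ n : ℕ, 1 ≤ n → ∀ z : Fin n → ℂ, LinearIndependent ℚ z →
    (n : Cardinal) ≤ Algebra.trdeg ℚ
      (IntermediateField.adjoin ℚ (range z ∪ range fun i => Complex.exp (z i)))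

end Pool.Agent.Helper35.SL
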