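import Pool.Agent.Helper35.SL.Fld
import Pool.Agent.Helper82.NL.PI

/-! Algebraically independent numbers over which `2 π i` is transcendental. -/

set_option autoImplicit false

namespace Pool.Agent.Helper35.SL

open Pool.Agent.Helper35.EM Pool.Agent.Helper56.EM Pool.Agent.Helper35.GF Set

theorem alg_two_I : (2 * Complex.I : ℂ) ∈ M.closure ∅ := by
  refine cl_mul (by have := cl_ratCast ∅ 2; simpa using this) (mem_cl_empty.2 ?_)
  refine ⟨Polynomial.X ^ 2 + 1, ?_, ?_⟩
  · intro h
    have := congrArg (Polynomial.eval (0 : ℚ)) h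
    simp at this
  · simp

theorem exists_s (R : ℕ) : ∃ s : Fin R → ℂ, AlgebraicIndependent ℚ s ∧
    2 * (Real.pi : ℂ) * Complex.I ∉ M.closure (range s) := by
  obtain ⟨I, hIA⟩ := M.exists_isBasis {(Real.pi : ℂ)} (by intro x _; exact mem_univ x)
  have hpi : (Real.pi : ℂ) ∈ I := by
    by_contra hn
    have h1 : I = ∅ := by
      rw [eq_empty_iff_forall_notMem]
      intro x hx
      have h2 := hIA.subset hx
      rw [mem_singleton_iff] at h2
      exact hn (h2 ▸ hx)
    have h2 : (Real.pi : ℂ) ∈ M.closure I := hIA.subset_closure (mem_singleton _)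
    rw [h1] at h2
    exact Pool.Agent.Helper82.NL.pi_not h2
  obtain ⟨B, hB, hIB⟩ := hIA.indep.exists_isBase_superset
  have hinf : B.Infinite := by
    intro hfin
    have h1 : (M.closure B).Countable := countable_closure hfin.countable
    have h2 : M.closure B = univ := hB.closure_eq
    rw [h2] at h1
    exact not_countable_complex h1
  have hinf2 : (B \ {(Real.pi : ℂ)}).Infinite := hinf.sdiff (finite_singleton _)
  have : Infinite ↥(B \ {(Real.pi : ℂ)}) := hinf2.to_subtype
  let f := Infinite.natEmbedding ↥(B \ {(Real.pi : ℂ)})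
  let s : Fin R → ℂ := fun j => ((f j : ↥(B \ {(Real.pi : ℂ)})) : ℂ)
  have hinj : Function.Injective s := fun a b hab =>
    Fin.val_injective (f.injective (Subtype.ext hab))
  have hsub : range s ⊆ B \ {(Real.pi : ℂ)} := by
    rintro _ ⟨j, rfl⟩; exact (f j).2
  refine ⟨s, (algebraicIndependent_subtype_range hinj).1
    (hB.indep.subset (hsub.trans sdiff_subset)), fun h => ?_⟩
  have h1 : (2 * Complex.I) * (Real.pi : ℂ) ∈ M.closure (range s) := by
    have e : (2 * Complex.I) * (Real.pi : ℂ) = 2 * (Real.pi : ℂ) * Complex.I := by ring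
    rw [e]; exact h
  have h2 : (2 * Complex.I : ℂ) ≠ 0 := by simp
  rw [cl_mul_iff (cl_empty_le alg_two_I) h2] at h1
  exact hB.indep.notMem_closure_sdiff_of_mem (hIB hpi) (cl_mono hsub h1)

end Pool.Agent.Helper35.SL
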