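import Pool.Agent.Helper35.SL.Fld
import Pool.Agent.Helper35.SL.Pi

/-! The instances of Schanuel's conjecture: shape, realization, implications. -/

set_option autoImplicit false

namespace Pool.Agent.Helper35.SL

open Pool.Agent.Helper35.EM Pool.Agent.Helper35.GF Set

theorem Adm.mono {δ : ℕ → ℕ} (h : Adm δ) : Monotone δ := monotone_nat_of_le_succ fun n => (h.2.2 n).1

theorem Adm.add {δ : ℕ → ℕ} (h : Adm δ) (n e : ℕ) : δ (n + e) ≤ δ n + e := by
  induction e with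
  | zero => simp
  | succ e ih => have := (h.2.2 (n + e)).2; rw [← add_assoc]; omega

theorem Adm.lt {δ : ℕ → ℕ} (h : Adm δ) (n : ℕ) (hn : 1 ≤ n) : δ n + 1 ≤ n := by
  obtain ⟨e, rfl⟩ := Nat.exists_eq_add_of_le hn
  have := h.add 1 e
  rw [h.2.1] at this
  omega

theorem Adm.le {δ : ℕ → ℕ} (h : Adm δ) (n : ℕ) : δ n ≤ n := by
  rcases Nat.eq_zero_or_pos n with rfl | hn
  · rw [h.1]
  · have := h.lt n hn; omega

theorem shape (hTR : S_TR) (hTI : S_TI) (F : ExpField) (hLW : LindemannWeierstrass F) :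
    ∃ δ : ℕ → ℕ, Adm δ ∧ ∀ n k, Sch F n k ↔ δ n ≤ k := by
  classical
  have hex : ∀ n, ∃ k, SchR F n k := fun n => ⟨n, fun z _ _ => le_add_self⟩
  have hup : ∀ n k, SchR F n k → ∀ k', k ≤ k' → SchR F n k' := by
    intro n k h k' hk
    obtain ⟨e, rfl⟩ := Nat.exists_eq_add_of_le hk
    clear hk
    induction e with
    | zero => exact h
    | succ e ih => exact (hTI F n (k + e)).1 ih
  have hiff : ∀ n k, SchR F n k ↔ Nat.find (hex n) ≤ k := fun n k =>
    ⟨fun h => Nat.find_min' _ h, fun h => hup n _ (Nat.find_spec (hex n)) k h⟩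
  refine ⟨fun n => Nat.find (hex n), ⟨?_, ?_, fun n => ⟨?_, ?_⟩⟩, fun n k => ?_⟩
  · exact Nat.le_zero.1 ((hiff 0 0).1 fun z _ _ => by simp)
  · exact Nat.le_zero.1 ((hiff 1 0).1 ((hTI F 0 0).2.2.2 hLW))
  · exact (hiff _ _).1 ((hTI F n _).2.1 (Nat.find_spec (hex (n + 1))))
  · exact (hiff _ _).1 ((hTI F n _).2.2.1 (Nat.find_spec (hex n)))
  · rw [hTR, hiff]

theorem realize (hTR : S_TR) (hTI : S_TI) (hMX : S_MX) (hMI : S_MI) (hGE : S_GE) (hKE : S_KE)
    {δ : ℕ → ℕ} (hδ : Adm δ) (hb : ∃ B, ∀ n, δ n ≤ B) :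
    ∃ F : ExpField, Gelfond F ∧ TruePi F ∧ ∀ n k, Sch F n k ↔ δ n ≤ k := by
  obtain ⟨N, hN, hconst⟩ : ∃ N, 1 ≤ N ∧ ∀ m, N ≤ m → δ m = δ N := by
    obtain ⟨B, hB⟩ := hb
    have hbdd : BddAbove (range δ) := ⟨B, by rintro _ ⟨n, rfl⟩; exact hB n⟩
    obtain ⟨N0, hN0⟩ := Nat.sSup_mem (range_nonempty δ) hbdd
    refine ⟨max N0 1, le_max_right _ _, fun m hm => le_antisymm ?_ (hδ.mono hm)⟩
    calc δ m ≤ sSup (range δ) := le_csSup hbdd ⟨m, rfl⟩
      _ = δ N0 := hN0.symm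
      _ ≤ δ (max N0 1) := hδ.mono (le_max_left _ _)
  set r : ℕ → ℕ := fun d => d - δ d with hrd
  have hr0 : r 0 = 0 := by simp [hrd]
  have hr1 : r 1 = 1 := by simp [hrd, hδ.2.1]
  have hr : ∀ d, r d ≤ r (d + 1) ∧ r (d + 1) ≤ r d + 1 := by
    intro d
    have h1 := hδ.2.2 d
    have h2 := hδ.le d
    have h3 := hδ.le (d + 1)
    simp only [hrd]
    omega
  obtain ⟨s, hs, hτ⟩ := exists_s (r N)
  obtain ⟨z, w, h⟩ := exists_bas hMX hMI N r hr0 hr1 hr hN hs
  obtain ⟨F, h1, h2, h3, h4⟩ := exists_fld h hGE hKE hr hr1 hτ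
  refine ⟨F, h1, h2, fun n k => ?_⟩
  rw [hTR]
  have hmin : ∀ n, δ (min n N) = δ n := by
    intro n
    rcases le_total n N with h | h
    · rw [min_eq_left h]
    · rw [min_eq_right h, hconst n h]
  constructor
  · intro hS
    rcases le_total n N with hn | hn
    · have h5 := h4 n k hn hS
      have h6 := hδ.le n
      simp only [hrd] at h5
      omega
    · have hdown : ∀ e, SchR F (N + e) k → SchR F N k := by
        intro e
        induction e with
        | zero => exact id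
        | succ e ih => intro h; exact ih ((hTI F (N + e) k).2.1 h)
      obtain ⟨e, rfl⟩ := Nat.exists_eq_add_of_le hn
      have h5 := h4 N k le_rfl (hdown e hS)
      have h6 := hδ.le N
      rw [hconst _ hn]
      simp only [hrd] at h5
      omega
  · intro hk
    apply h3
    have h5 := hmin n
    have h6 := hδ.le (min n N)
    simp only [hrd]
    omega

theorem Gelfond.lw {F : ExpField} (h : Gelfond F) : LindemannWeierstrass F := by
  intro n α ha hi
  have h1 := h n 0 α Fin.elim0 ha (fun j => j.elim0) hi (linearIndependent_empty_type)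
  have h2 := h1.comp (Fin.castAdd 0) (Fin.castAdd_injective n 0)
  have h3 : (Fin.append (fun i => F.E (α i)) Fin.elim0) ∘ Fin.castAdd 0 = fun i => F.E (α i) := by
    funext i; simp
  rw [← h3]; exact h2

theorem Gelfond.log {F : ExpField} (h : Gelfond F) : LogIndependence F := by
  intro n u hu hi
  have h1 := h 0 n Fin.elim0 u (fun j => j.elim0) hu (linearIndependent_empty_type) hi
  have h2 := h1.comp (Fin.natAdd 0) (Fin.natAdd_injective n 0)
  have h3 : (Fin.append (fun i : Fin 0 => F.E ((Fin.elim0 : Fin 0 → ℂ) i)) u) ∘ Fin.natAdd 0 = u := by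
    funext i; exact Fin.append_right _ _ i
  rw [← h3]; exact h2

theorem implies (hTR : S_TR) (hTI : S_TI) {T : Set (ℕ × ℕ)} {n k : ℕ}
    (h : n ≤ k + 1 ∨ ∃ s ∈ T, s.2 ≤ k ∧ n + s.2 ≤ s.1 + k) {F : ExpField}
    (hLW : LindemannWeierstrass F) (hT : ∀ s ∈ T, Sch F s.1 s.2) : Sch F n k := by
  obtain ⟨δ, hδ, hS⟩ := shape hTR hTI F hLW
  rw [hS]
  rcases h with h | ⟨s, hs, h1, h2⟩
  · rcases Nat.eq_zero_or_pos n with rfl | hn
    · rw [hδ.1]; exact Nat.zero_le _
    · have := hδ.lt n hn; omega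
  · have h3 := (hS s.1 s.2).1 (hT s hs)
    rcases le_total n s.1 with h4 | h4
    · exact (hδ.mono h4).trans (h3.trans h1)
    · obtain ⟨e, rfl⟩ := Nat.exists_eq_add_of_le h4
      have := hδ.add s.1 e
      omega

theorem not_implies (hTR : S_TR) (hTI : S_TI) (hMX : S_MX) (hMI : S_MI) (hGE : S_GE)
    (hKE : S_KE) {T : Set (ℕ × ℕ)} {n k : ℕ}
    (h : ∀ F : ExpField, Gelfond F → TruePi F → (∀ s ∈ T, Sch F s.1 s.2) → Sch F n k) :
    n ≤ k + 1 ∨ ∃ s ∈ T, s.2 ≤ k ∧ n + s.2 ≤ s.1 + k := by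
  by_contra hcon
  push Not at hcon
  obtain ⟨hnk, hT⟩ := hcon
  set δ : ℕ → ℕ := fun d => min d n - (n - k - 1) with hδd
  have hδ : Adm δ := by
    refine ⟨?_, ?_, fun d => ⟨?_, ?_⟩⟩
    · simp [hδd]
    · show min 1 n - (n - k - 1) = 0
      omega
    · show min d n - (n - k - 1) ≤ min (d + 1) n - (n - k - 1)
      omega
    · show min (d + 1) n - (n - k - 1) ≤ min d n - (n - k - 1) + 1
      omega
  obtain ⟨F, h1, h2, h3⟩ := realize hTR hTI hMX hMI hGE hKE hδ
    ⟨n, fun d => (Nat.sub_le _ _).trans (min_le_right _ _)⟩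
  have h4 : Sch F n k := h F h1 h2 fun s hs => by
    rw [h3]
    have h5 := hT s hs
    show min s.1 n - (n - k - 1) ≤ s.2
    by_cases h6 : s.2 ≤ k
    · have := h5 h6; omega
    · omega
  rw [h3] at h4
  have h5 : min n n - (n - k - 1) ≤ k := h4
  rw [min_self] at h5
  omega

end Pool.Agent.Helper35.SL
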