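import Pool.Agent.Helper35.SL.Stm

/-! Statements of two more packages. -/

set_option autoImplicit false

namespace Pool.Agent.Helper35.SL

open Pool.Agent.Helper35.EM Pool.Agent.Helper35.GF Pool.Agent.Helper56.EM
  Set Module Submodule

/-- Package GE: Gel'fond's conjecture in full. PROOF. `x = Fin.append α u` is rationally independent (if
`a = l` with `a` algebraic, not zero, and `E l` algebraic: contradiction with Lindemann-Weierstrass for one
number). Let `V` be the span of `x`, `I = V.map (gr lam) ⊓ P`. Claim: each `p ∈ I` is a rational multiple of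
`(τ, κ)`. Here `p.1 = a + l` with `a` algebraic, `Complex.exp (lam l)` algebraic, so `Complex.exp (lam a) =
Complex.exp p.2 / Complex.exp (lam l)` is in `M.closure (co P)`. If `a ≠ 0`, use `hT.rk` for
`W = P.comap (gr lam) ⊔ span {a}`: `W.map (gr lam) ⊓ P = P`, `finrank W = finrank P + 1` (by `htr`),
`co (W.map (gr lam)) ⊆ M.closure (co P)`: contradiction. So `a = 0`, `Complex.exp p.2` is
algebraic, and `hexp` gives the claim. So `finrank I ≤ M.eRk (co I)` (`τ` is transcendental), and `hT.rk`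
for `V` gives `n + m ≤ M.eRk (co (V.map (gr lam))) ≤ M.eRk (range (Fin.append (E ∘ α) u))`; then
`algInd_of_rk`. (The last step and the rank of a tuple are done for `u` alone in
`Pool/Agent/Helper35/SL/Fld.lean`, `hmain` and 'logarithms'.) -/
def S_GE : Prop := ∀ (K : IntermediateField ℚ ℂ) (lam : K →ₗ[ℚ] ℂ) (P : Submodule ℚ (ℂ × ℂ))
  (F : ExpField), Pool.Agent.Helper56.SA.Tw lam P → F.K = K.toSubfield → (∀ x : K, F.E x = Complex.exp (lam x)) →
  (∀ z ∈ M.closure ∅, z ∈ K) → LindemannWeierstrass F →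
  (∀ p ∈ P, p.1 ∈ M.closure ∅ → p = 0) → ∀ τ κ : ℂ, τ ∉ M.closure ∅ →
  (∀ p ∈ P, Complex.exp p.2 ∈ M.closure ∅ → ∃ c : ℚ, p = c • (τ, κ)) → Gelfond F

/-- Package KE: the kernel. `F.ker` has a generator `τ'`; `E τ = exp (2 π i) = 1`, so `τ = m τ'`, `m ≠ 0`,
and `1 = E (τ / m) = exp (2 π i / m)` gives `m = ± 1`. -/
def S_KE : Prop := ∀ (K : IntermediateField ℚ ℂ) (lam : K →ₗ[ℚ] ℂ) (F : ExpField),
  F.K = K.toSubfield → (∀ x : K, F.E x = Complex.exp (lam x)) → ∀ v : K, (v : ℂ) ≠ 0 →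
    lam v = 2 * (Real.pi : ℂ) * Complex.I → ∀ x ∈ F.K, F.E x = 1 ↔ ∃ n : ℤ, x = n * (v : ℂ)

end Pool.Agent.Helper35.SL
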