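import Pool.Agent.Helper35.SL.Base
import Pool.Agent.Helper35.SL.Stm2

/-! The field of the base. -/

set_option autoImplicit false

namespace Pool.Agent.Helper35.SL

open Pool.Agent.Helper35.EM Pool.Agent.Helper56.EM Pool.Agent.Helper35.GF Set Module Submodule

open Pool.Agent.Helper56.SA (kk kk_mem kk_le Tw Nb BK)

section

variable {N : ℕ} {r : ℕ → ℕ} {s : Fin (r N) → ℂ} {z w : Fin N → ℂ}

/-- the map onto the base -/
noncomputable def TT (z w : Fin N → ℂ) : (Fin N → ℚ) →ₗ[ℚ] ℂ × ℂ :=
  Fintype.linearCombination ℚ fun i => (z i, w i)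

theorem TT_fst (q : Fin N → ℚ) : (TT z w q).1 = ∑ i, (q i : ℂ) * z i := by
  show (∑ i, q i • (z i, w i)).1 = _
  rw [Prod.fst_sum]
  exact Finset.sum_congr rfl fun i _ => by rw [Prod.smul_fst, Rat.smul_def]

theorem TT_snd (q : Fin N → ℚ) : (TT z w q).2 = ∑ i, (q i : ℂ) * w i := by
  show (∑ i, q i • (z i, w i)).2 = _
  rw [Prod.snd_sum]
  exact Finset.sum_congr rfl fun i _ => by rw [Prod.smul_snd, Rat.smul_def]

/-- the base -/
noncomputable def PS (z w : Fin N → ℂ) : Submodule ℚ (ℂ × ℂ) := LinearMap.range (TT z w)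

variable (h : Bas N r s z w)
include h

theorem Bas.inj : Function.Injective (TT z w) := by
  rw [← LinearMap.ker_eq_bot, LinearMap.ker_eq_bot']
  intro q hq
  apply h.tr
  rw [← TT_fst (w := w), hq]
  exact cl_zero _

theorem Bas.finrank_PS : finrank ℚ (PS z w) = N := by
  have := LinearMap.finrank_range_of_inj h.inj
  rw [PS, this]; simp

theorem Bas.st : St (PS z w) (range s) := by
  have hz : ∀ i, z i ∈ M.closure (range s) := fun i => cl_mono (image_subset_range _ _) (h.z_mem i)
  have hw : ∀ i, Complex.exp (w i) ∈ M.closure (range s) := fun i =>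
    cl_mono (image_subset_range _ _) (h.w_mem i)
  refine ⟨?_, ?_, ?_, ?_, ?_⟩
  · rw [PS]; infer_instance
  · rintro _ ⟨q, rfl⟩
    rw [TT_fst]
    exact cl_sum_rat q z hz
  · rintro _ ⟨q, rfl⟩
    rw [TT_snd]
    exact cl_exp_sum q w hw
  · rintro _ ⟨q, rfl⟩ h0
    rw [TT_fst] at h0
    rw [h.tr q (by rw [h0]; exact cl_zero _), map_zero]
  · rintro _ ⟨q, rfl⟩ h0
    rw [TT_snd] at h0
    rw [h.mi q (by rw [h0, Complex.exp_zero]; exact cl_one _), map_zero]

theorem Bas.rank_le {U : Submodule ℚ (ℂ × ℂ)} (hU : U ≤ PS z w) :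
    (r (finrank ℚ U) : ℕ∞) ≤ M.eRk (co U) := by
  have e1 : (U.comap (TT z w)).map (TT z w) = U := by
    rw [Submodule.map_comap_eq, inf_eq_right]; exact hU
  have e2 : finrank ℚ (U.comap (TT z w)) = finrank ℚ U := by
    have := LinearEquiv.finrank_eq (Submodule.equivMapOfInjective (TT z w) h.inj (U.comap (TT z w)))
    rw [this, e1]
  rw [← e2]
  refine (h.rk _).trans (M.eRk_mono ?_)
  rintro _ ⟨q, hq, rfl⟩
  exact ⟨TT z w q, hq, Or.inl (TT_fst q).symm⟩

theorem exists_fld (hGE : S_GE) (hKE : S_KE) (hr : ∀ d, r d ≤ r (d + 1) ∧ r (d + 1) ≤ r d + 1)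
    (h1 : r 1 = 1) {τ : ℂ}
    (hτ : τ ∉ M.closure (range s)) :
    ∃ F : ExpField, Gelfond F ∧ (τ ∈ F.K ∧ ∀ x ∈ F.K, F.E x = 1 ↔ ∃ n : ℤ, x = n * τ) ∧
      (∀ n k, min n N ≤ r (min n N) + k → SchR F n k) ∧
      (∀ n k, n ≤ N → SchR F n k → n ≤ r n + k) := by
  have hmono : Monotone r := monotone_nat_of_le_succ fun d => (hr d).1
  have hstep : ∀ d e, r (d + e) ≤ r d + e := by
    intro d e
    induction e with
    | zero => simp
    | succ e ih => have := (hr (d + e)).2; rw [← add_assoc]; omega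
  set κ : ℂ := 2 * (Real.pi : ℂ) * Complex.I with hκ
  have hκ1 : Complex.exp κ = 1 := Complex.exp_two_pi_mul_I
  have hκ0 : κ ≠ 0 := Complex.two_pi_I_ne_zero
  have hκa : ∀ c : ℚ, Complex.exp ((c : ℂ) * κ) ∈ M.closure ∅ := fun c => by
    have := cl_exp_smul (s := ∅) c (z := κ) (by rw [hκ1]; exact cl_one _)
    rwa [Rat.smul_def] at this
  have hst := h.st
  have hsub : range s ⊆ insert τ (range s) := subset_insert _ _
  have hxP : ¬ ∃ u, (u, κ) ∈ PS z w := by
    rintro ⟨u, q, hq⟩
    have h2 : ∑ i, (q i : ℂ) * w i = κ := by rw [← TT_snd (z := z), hq]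
    have h3 := h.mi q (by rw [h2, hκ1]; exact cl_one _)
    rw [h3] at h2
    apply hκ0
    rw [← h2]; simp
  obtain ⟨hst1, hI⟩ := backG hsub hst (g := τ) (w := κ) (cl_self (mem_insert _ _)) hτ hxP
    (by rw [hκ1]; exact cl_one _)
  set P1 : Submodule ℚ (ℂ × ℂ) := PS z w ⊔ span ℚ {(τ, κ)} with hP1
  have hmemP1 : ∀ p ∈ P1, ∃ (q : Fin N → ℚ) (c : ℚ), p = TT z w q + c • (τ, κ) ∧
      p.1 = ∑ i, (q i : ℂ) * z i + (c : ℂ) * τ ∧ p.2 = ∑ i, (q i : ℂ) * w i + (c : ℂ) * κ := by
    intro p hp
    obtain ⟨_, ⟨q, rfl⟩, v, hv, rfl⟩ := Submodule.mem_sup.1 hp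
    obtain ⟨c, rfl⟩ := Submodule.mem_span_singleton.1 hv
    refine ⟨q, c, rfl, ?_, ?_⟩
    · rw [Prod.fst_add, TT_fst, Prod.smul_fst, Rat.smul_def]
    · rw [Prod.snd_add, TT_snd, Prod.smul_snd, Rat.smul_def]
  have hτP : (τ, κ) ∈ P1 := Submodule.mem_sup_right (Submodule.mem_span_singleton_self _)
  -- pairs with algebraic exponential
  have hexp : ∀ p ∈ P1, Complex.exp p.2 ∈ M.closure ∅ → ∃ c : ℚ, p = c • (τ, κ) := by
    intro p hp h2
    obtain ⟨q, c, e0, e1, e2⟩ := hmemP1 p hp
    rw [e2, Complex.exp_add] at h2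
    have h3 := cl_div h2 (hκa c)
    rw [mul_div_cancel_right₀ _ (Complex.exp_ne_zero _)] at h3
    refine ⟨c, ?_⟩
    rw [e0, h.mi q h3, map_zero, zero_add]
  -- the conditions on the base
  set l : Fin 1 → ℂ := fun _ => τ with hl
  have hτcl : τ ∉ M.closure ∅ := fun h => hτ (cl_empty_le h)
  have hlind : IndepWithOne l := by
    intro c₀ c hc0 hc hs
    rw [Fin.sum_univ_one] at hs
    have h2 : c 0 = 0 := by
      by_contra h2
      apply hτcl
      have : τ = -c₀ / c 0 := by
        have h3 : c₀ + c 0 * τ = 0 := hs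
        field_simp
        linear_combination h3
      rw [this]
      exact cl_div (cl_neg (mem_cl_empty.2 hc0)) (mem_cl_empty.2 (hc 0))
    refine ⟨?_, fun j => ?_⟩
    · rw [h2, zero_mul, add_zero] at hs; exact hs
    · rw [Subsingleton.elim j 0]; exact h2
  have hlco : ∀ j, l j ∈ M.closure (co P1) := fun j => cl_self ⟨_, hτP, Or.inl rfl⟩
  have hGB : GB P1 (span ℚ (range l)) (WL l) := by
    refine ⟨?_, ?_, ?_, ?_, ?_, ?_, subset_span (mem_insert _ _)⟩
    · intro U hU hUa
      have hbot : U = ⊥ := by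
        rw [eq_bot_iff]
        intro p hp
        obtain ⟨q, c, e0, e1, e2⟩ := hmemP1 p (hU hp)
        have h2 := hUa p hp
        rw [e1] at h2
        have hc : c = 0 := by
          by_contra hc
          apply hτ
          have hcC : (c : ℂ) ≠ 0 := by exact_mod_cast hc
          have h3 : (c : ℂ) * τ ∈ M.closure (range s) := by
            have h4 : ∑ i, (q i : ℂ) * z i ∈ M.closure (range s) :=
              cl_sum_rat q z fun i => cl_mono (image_subset_range _ _) (h.z_mem i)
            have h5 := cl_sub (cl_empty_le (s := range s) h2) h4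
            rwa [add_sub_cancel_left] at h5
          rwa [cl_mul_iff (cl_ratCast _ _) hcC] at h3
        rw [hc, Rat.cast_zero, zero_mul, add_zero] at h2
        rw [e0, hc, h.tr q h2, map_zero, zero_smul, add_zero]
        exact Submodule.zero_mem _
      rw [hbot, finrank_bot]
      simp
    · intro q hq hq2
      obtain ⟨c, rfl⟩ := hexp q hq hq2
      exact Submodule.smul_mem _ _ (subset_span ⟨0, rfl⟩)
    · intro v hv
      induction hv using Submodule.span_induction with
      | mem v hv => obtain ⟨j, rfl⟩ := hv; exact hlco j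
      | zero => exact cl_zero _
      | add v w _ _ hv hw => exact cl_add hv hw
      | smul q v _ hv => exact cl_smul q hv
    · refine BK.base l fun c₀ c h0 hc hs => ?_
      exact hlind c₀ c (mem_cl_empty.1 h0) (fun j => mem_cl_empty.1 (hc j)) hs
    · intro v hv
      induction hv using Submodule.span_induction with
      | mem v hv =>
        rcases hv with rfl | ⟨j, rfl⟩
        · exact cl_one _
        · exact hlco j
      | zero => exact cl_zero _
      | add v w _ _ hv hw => exact cl_add hv hw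
      | smul q v _ hv => exact Pool.Agent.Helper56.SA.smul_cl q hv
    · intro v hv
      induction hv using Submodule.span_induction with
      | mem v hv => exact subset_span (mem_insert_of_mem _ hv)
      | zero => exact Submodule.zero_mem _
      | add v w _ _ hv hw => exact Submodule.add_mem _ hv hw
      | smul q v _ hv => exact rat_mem q hv
  obtain ⟨t, Nt, ht, hA⟩ := Pool.Agent.Helper92.GF.fs (insert τ (range s))
    ((finite_range s).insert τ)
  have hcl : M.closure (insert τ (range s)) ⊆ M.closure (t '' Iio Nt) := cl_le hA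
  have hst2 : St P1 (t '' Iio Nt) := ⟨hst1.fin, fun p hp => hcl (hst1.fst_mem p hp),
    fun p hp => hcl (hst1.exp_mem p hp), hst1.inj1, hst1.inj2⟩
  obtain ⟨K, lam, F, hFK, hFE, hT, hKk, hLW, -, -⟩ := hGB.field ht hst2 _ hτP
  -- the rank inequality for a tuple
  have hmain : ∀ (n : ℕ) (x : Fin n → ℂ), (∀ i, x i ∈ F.K) → LinearIndependent ℚ x →
      ∃ I : Submodule ℚ (ℂ × ℂ), I ≤ P1 ∧ finrank ℚ I ≤ n ∧
        (∀ p ∈ I, ∃ v : K, (v : ℂ) ∈ span ℚ (range x) ∧ (v : ℂ) = p.1 ∧ lam v = p.2) ∧
        (n : ℕ∞) + M.eRk (co I) ≤ M.eRk (range x ∪ range fun i => F.E (x i)) +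
          (finrank ℚ I : ℕ∞) := by
    intro n x hx hxi
    have hxK : ∀ i, x i ∈ K := fun i => by have := hx i; rw [hFK] at this; exact this
    set x' : Fin n → K := fun i => ⟨x i, hxK i⟩ with hx'
    have hxi' : LinearIndependent ℚ x' := by
      have h1 : x = K.val.toLinearMap ∘ x' := rfl
      rw [h1] at hxi
      exact hxi.of_comp _
    set V : Submodule ℚ K := span ℚ (range x') with hV
    have hfV : FiniteDimensional ℚ V := FiniteDimensional.span_of_finite ℚ (finite_range x')
    have hdV : finrank ℚ V = n := by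
      have := finrank_span_eq_card hxi'
      simpa using this
    have hVcl : ∀ v ∈ V, (v : ℂ) ∈ span ℚ (range x) ∧
        (v : ℂ) ∈ M.closure (range x ∪ range fun i => F.E (x i)) ∧
        Complex.exp (lam v) ∈ M.closure (range x ∪ range fun i => F.E (x i)) := by
      intro v hv
      induction hv using Submodule.span_induction with
      | mem v hv =>
        obtain ⟨i, rfl⟩ := hv
        refine ⟨subset_span ⟨i, rfl⟩, cl_self (Or.inl ⟨i, rfl⟩), ?_⟩
        rw [← hFE]
        exact cl_self (Or.inr ⟨i, rfl⟩)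
      | zero =>
        refine ⟨Submodule.zero_mem _, cl_zero _, ?_⟩
        rw [map_zero, Complex.exp_zero]; exact cl_one _
      | add v w _ _ hv hw =>
        refine ⟨Submodule.add_mem _ hv.1 hw.1, cl_add hv.2.1 hw.2.1, ?_⟩
        rw [map_add]; exact cl_exp_add hv.2.2 hw.2.2
      | smul c v _ hv =>
        refine ⟨Submodule.smul_mem _ c hv.1, cl_smul c hv.2.1, ?_⟩
        rw [map_smul]; exact cl_exp_smul c hv.2.2
    have hrk := hT.rk V hfV
    rw [hdV] at hrk
    have hfM : FiniteDimensional ℚ (V.map (gr lam)) := inferInstance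
    refine ⟨V.map (gr lam) ⊓ P1, inf_le_right, ?_, ?_, ?_⟩
    · refine (Submodule.finrank_mono inf_le_left).trans ?_
      rw [← hdV]
      exact Submodule.finrank_map_le (gr lam) V
    · rintro p ⟨⟨v, hv, rfl⟩, -⟩
      exact ⟨v, (hVcl v hv).1, rfl, rfl⟩
    · refine hrk.trans ?_
      gcongr
      rw [← M.eRk_closure_eq (range x ∪ range fun i => F.E (x i))]
      apply M.eRk_mono
      rintro _ ⟨_, ⟨v, hv, rfl⟩, rfl | rfl⟩
      · exact (hVcl v hv).2.1
      · exact (hVcl v hv).2.2
  have htop1 : M.eRk (co P1) ≠ ⊤ := hT.top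
  refine ⟨F, ?_, ?_, ?_, ?_⟩
  · -- Gel'fond's conjecture
    refine hGE K lam P1 F hT hFK hFE hKk hLW ?_ τ κ hτcl hexp
    intro p hp hpa
    obtain ⟨q, c, e0, e1, e2⟩ := hmemP1 p hp
    rw [e1] at hpa
    have hc : c = 0 := by
      by_contra hc
      apply hτ
      have hcC : (c : ℂ) ≠ 0 := by exact_mod_cast hc
      have h3 : (c : ℂ) * τ ∈ M.closure (range s) := by
        have h4 : ∑ i, (q i : ℂ) * z i ∈ M.closure (range s) :=
          cl_sum_rat q z fun i => cl_mono (image_subset_range _ _) (h.z_mem i)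
        have h5 := cl_sub (cl_empty_le (s := range s) hpa) h4
        rwa [add_sub_cancel_left] at h5
      rwa [cl_mul_iff (cl_ratCast _ _) hcC] at h3
    rw [hc, Rat.cast_zero, zero_mul, add_zero] at hpa
    rw [e0, hc, h.tr q hpa, map_zero, zero_smul, add_zero]
  · -- the kernel
    obtain ⟨v, hv1, hv2⟩ := hT.mem _ hτP
    have hv1' : (v : ℂ) = τ := hv1
    have hv0 : (v : ℂ) ≠ 0 := by
      rw [hv1']; rintro rfl; exact hτcl (cl_zero _)
    have h2 := hKE K lam F hFK hFE v hv0 hv2
    rw [hv1'] at h2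
    exact ⟨by rw [hFK, ← hv1']; exact v.2, h2⟩
  · -- the instances which hold
    intro n k hnk x hx hxi
    obtain ⟨I, hI1, hI2, -, hI4⟩ := hmain n x hx hxi
    have hI5 := hI I hI1
    set U : Submodule ℚ (ℂ × ℂ) := I ⊓ PS z w with hU
    have hfI : FiniteDimensional ℚ P1 := hst1.fin
    have hfI' : FiniteDimensional ℚ I := Submodule.finiteDimensional_of_le hI1
    have hfPS : FiniteDimensional ℚ (PS z w) := hst.fin
    have hd1 : finrank ℚ U ≤ n := (Submodule.finrank_mono inf_le_left).trans hI2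
    have hd2 : finrank ℚ U ≤ N := by
      have := Submodule.finrank_mono (inf_le_right : U ≤ PS z w)
      rwa [h.finrank_PS] at this
    have hrU : (r (finrank ℚ U) : ℕ∞) ≤ M.eRk (co U) := h.rank_le inf_le_right
    have htop : M.eRk (co I) ≠ ⊤ := ne_top_of_le_ne_top htop1 (M.eRk_mono (co_mono hI1))
    have htop2 : M.eRk (co U) ≠ ⊤ := ne_top_of_le_ne_top htop (M.eRk_mono (co_mono inf_le_left))
    obtain ⟨e, he⟩ : ∃ e, min n N = finrank ℚ U + e := Nat.exists_eq_add_of_le (le_min hd1 hd2)
    have h2 := hstep (finrank ℚ U) e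
    rw [← he] at h2
    obtain ⟨a, ha⟩ := ENat.ne_top_iff_exists.1 htop
    obtain ⟨b, hb⟩ := ENat.ne_top_iff_exists.1 htop2
    rw [← ha] at hI4 hI5
    rw [← hb] at hI5 hrU
    generalize M.eRk (range x ∪ range fun i => F.E (x i)) = y at hI4 ⊢
    induction y using ENat.recTopCoe with
    | top => simp
    | coe y =>
      norm_cast at hI4 hI5 hrU ⊢
      omega
  · -- the instances which fail
    intro n k hn hS
    rcases Nat.eq_zero_or_pos n with rfl | hn0
    · exact Nat.zero_le _
    have hzP : ∀ i, (z i, w i) ∈ P1 := fun i => Submodule.mem_sup_left ⟨Pi.single i 1, by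
      show ∑ j, (Pi.single i (1 : ℚ) : Fin N → ℚ) j • (z j, w j) = (z i, w i)
      rw [Finset.sum_eq_single i]
      · simp
      · intro j _ hj; simp [Pi.single_eq_of_ne hj]
      · intro h; exact absurd (Finset.mem_univ i) h⟩
    have hzK : ∀ i, z i ∈ F.K ∧ F.E (z i) = Complex.exp (w i) := by
      intro i
      obtain ⟨v, h2, h3⟩ := hT.mem _ (hzP i)
      have h2' : (v : ℂ) = z i := h2
      have h3' : lam v = w i := h3
      refine ⟨by rw [← h2', hFK]; exact v.2, ?_⟩
      rw [← h2', hFE, h3']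
    have hzi : LinearIndependent ℚ z := by
      rw [Fintype.linearIndependent_iff]
      intro q hq i
      have h2 : ∑ i, (q i : ℂ) * z i = 0 := by
        rw [← hq]
        exact Finset.sum_congr rfl fun i _ => by rw [Rat.smul_def]
      exact congrFun (h.tr q (by rw [h2]; exact cl_zero _)) i
    have h2 := hS (fun i => z (Fin.castLE hn i)) (fun i => (hzK _).1)
      (hzi.comp _ (Fin.castLE_injective hn))
    have h3 : M.eRk (range (fun i => z (Fin.castLE hn i)) ∪
        range fun i => F.E (z (Fin.castLE hn i))) ≤ (r n : ℕ∞) := by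
      have h4 : (range (fun i => z (Fin.castLE hn i)) ∪
          range fun i => F.E (z (Fin.castLE hn i))) ⊆ M.closure (s '' {j | (j : ℕ) < r n}) := by
        rintro _ (⟨i, rfl⟩ | ⟨i, rfl⟩)
        · refine cl_mono ?_ (h.z_mem _)
          refine image_mono fun j hj => ?_
          exact lt_of_lt_of_le hj (hmono i.2)
        · show F.E _ ∈ _
          rw [(hzK _).2]
          refine cl_mono ?_ (h.w_mem _)
          refine image_mono fun j hj => ?_
          exact lt_of_lt_of_le hj (h1 ▸ hmono hn0)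
      refine (M.eRk_mono h4).trans ?_
      rw [M.eRk_closure_eq]
      refine (M.eRk_le_encard _).trans ((encard_image_le _ _).trans ?_)
      have h5 : {j : Fin (r N) | (j : ℕ) < r n}.encard ≤ (Finset.range (r n) : Set ℕ).encard := by
        refine encard_le_encard_of_injOn (f := fun j : Fin (r N) => (j : ℕ)) ?_ ?_
        · intro j hj
          exact Finset.mem_coe.2 (Finset.mem_range.2 hj)
        · exact Fin.val_injective.injOn
      refine h5.trans ?_
      rw [encard_coe_eq_coe_finsetCard, Finset.card_range]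
    have h4 : (n : ℕ∞) ≤ (r n : ℕ∞) + (k : ℕ∞) := h2.trans (by gcongr)
    exact_mod_cast h4

end

end Pool.Agent.Helper35.SL
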