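import Pool.Agent.Helper35.SL.Fin

/-! The complex numbers. -/

set_option autoImplicit false

namespace Pool.Agent.Helper35.SL

open Pool.Agent.Helper35.EM Pool.Agent.Helper35.GF Set

theorem schanuel_iff {F : ExpField} (hK : F.K = ⊤) (hE : F.E = Complex.exp) :
    Schanuel ↔ ∀ n, Sch F n 0 := by
  obtain ⟨K, E, h1, h2, h3, h4, h5⟩ := F
  have hK' : K = ⊤ := hK
  have hE' : E = Complex.exp := hE
  subst hE' hK'
  constructor
  · intro h n z _ hz
    rcases Nat.eq_zero_or_pos n with rfl | hn
    · simp
    · exact (h n hn z hz).trans le_self_add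
  · intro h n _ z hz
    have := h n z (fun i => trivial) hz
    rwa [Nat.cast_zero, add_zero] at this

end Pool.Agent.Helper35.SL
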