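import Pool.Agent.Helper35.GL.Que
import Pool.Agent.Helper35.SL.Def

/-! Instances of Schanuel's conjecture in an exponential field, and statements of packages. -/

set_option autoImplicit false

namespace Pool.Agent.Helper35.SL

open Pool.Agent.Helper35.EM Pool.Agent.Helper35.GF Set Module Submodule

/-- the same with the rank of the matroid -/
def SchR (F : ExpField) (n k : ℕ) : Prop :=
  ∀ z : Fin n → ℂ, (∀ i, z i ∈ F.K) → LinearIndependent ℚ z →
    (n : ℕ∞) ≤ M.eRk (range z ∪ range fun i => F.E (z i)) + (k : ℕ∞)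

/-- Package TR: `Sch` is `SchR`. (`trdeg_defect` in `Helper56/SA/Df.lean` gives one direction; the other:
`trdeg_le` in `Helper35/EM/Crit.lean`, or a basis of the set and
`IntermediateField` trdeg of a set is the rank.) -/
def S_TR : Prop := ∀ (F : ExpField) (n k : ℕ), Sch F n k ↔ SchR F n k

/-- Package TI: the trivial implications, for `SchR`. (Last: all `z i`, `E (z i)` algebraic is impossible for
`n ≥ 1` by `LindemannWeierstrass` with one number. Second: extend `z` by an algebraic number which is not in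
the rational span of the `z i` (`Pool.Agent.Helper35.GL.ga` gives many); this adds at most one to the rank.
Third: omit the last number.) -/
def S_TI : Prop := ∀ (F : ExpField) (n k : ℕ), (SchR F n k → SchR F n (k + 1)) ∧
  (SchR F (n + 1) k → SchR F n k) ∧ (SchR F n k → SchR F (n + 1) (k + 1)) ∧
    (LindemannWeierstrass F → SchR F (n + 1) n)

/-- Package EC: pivots (last nonzero coordinates) of a rational space. -/
def S_EC : Prop := ∀ (N : ℕ) (U : Submodule ℚ (Fin N → ℚ)),
  ∃ (p : Fin (finrank ℚ U) → Fin N) (u : Fin (finrank ℚ U) → (Fin N → ℚ)), StrictMono p ∧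
    ∀ a, u a ∈ U ∧ u a (p a) ≠ 0 ∧ ∀ i, p a < i → u a i = 0

/-- Package MX (from EC): a matrix of algebraic numbers with prescribed generic ranks. Let
`R = r N`, `V i j = θ ^ (2 ^ (i * R + j))` for `j < r (i + 1)` and `0` otherwise, `θ` a root of unity of large
prime order (as in `Pool.Agent.Helper35.GL.ga`: its powers are rationally independent). For `U` of dimension
`d` take pivots `p a ≥ a` and vectors `u a`, and for `j < r d` the first `a_j` with `r (a_j + 1) = j + 1`. The
minor of the rows `u (a_j)` of `U V` with the columns `j < r d` is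
`∑_f (∏_j V (f j) j) det (u (a_i) (f j))` (sum over all `f : Fin (r d) → Fin N`, as in Cauchy-Binet); the
products have different exponents (`Finset.geomSum_injective`), and for `f j = p (a_j)` the
determinant is triangular, not zero. -/
def S_MX : Prop := ∀ (N : ℕ) (r : ℕ → ℕ), r 0 = 0 → (∀ d, r d ≤ r (d + 1) ∧ r (d + 1) ≤ r d + 1) →
  ∃ V : Fin N → Fin (r N) → ℂ, (∀ i j, IsAlgebraic ℚ (V i j)) ∧
    (∀ (i : Fin N) (j : Fin (r N)), r ((i : ℕ) + 1) ≤ (j : ℕ) → V i j = 0) ∧
    ∀ U : Submodule ℚ (Fin N → ℚ), ∃ u : Fin (r (finrank ℚ U)) → (Fin N → ℚ), (∀ a, u a ∈ U) ∧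
      LinearIndependent ℂ fun a j => ∑ i, ((u a i : ℚ) : ℂ) * V i j

/-- Package MI: `w i = log (t + i + 1)`; polynomials in `t` with algebraic coefficients. -/
def S_MI : Prop := ∀ (N : ℕ) (t : ℂ), t ∉ M.closure ∅ → ∃ w : Fin N → ℂ,
  (∀ i, Complex.exp (w i) ∈ M.closure {t}) ∧
    ∀ q : Fin N → ℚ, Complex.exp (∑ i, (q i : ℂ) * w i) ∈ M.closure ∅ → q = 0

end Pool.Agent.Helper35.SL
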