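import Pool.Agent.Helper35.SL.Stm
import Pool.Agent.Helper35.EM.Crit
import Pool.Agent.Helper56.SA.Df

/-! The transcendence degree is the rank. -/

set_option autoImplicit false

namespace Pool.Agent.Helper35.SL

open Pool.Agent.Helper35.EM Pool.Agent.Helper35.GF Set

theorem rk_of_trdeg {A : Set ℂ} (hA : A.Finite) {n k : ℕ}
    (h : (n : Cardinal) ≤ Algebra.trdeg ℚ (IntermediateField.adjoin ℚ A) + (k : Cardinal)) :
    (n : ℕ∞) ≤ M.eRk A + k := by
  obtain ⟨B, hB⟩ := M.exists_isBasis' A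
  have hfin : B.Finite := hA.subset hB.subset
  obtain ⟨m, hm⟩ : ∃ m : ℕ, B.encard = m := ⟨hfin.toFinset.card, by
    rw [hfin.encard_eq_coe_toFinset_card]⟩
  have h1 : Algebra.trdeg ℚ (IntermediateField.adjoin ℚ A) ≤ m :=
    trdeg_le (B := B) hm.le fun x hx => by
      show x ∈ M.closure B
      rw [hB.closure_eq_closure]
      exact M.mem_closure_of_mem' hx (mem_univ _)
  have h2 : (n : Cardinal) ≤ (m : Cardinal) + (k : Cardinal) := h.trans (by gcongr)
  have h3 : n ≤ m + k := by exact_mod_cast h2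
  rw [← hB.encard_eq_eRk, hm]
  exact_mod_cast h3

theorem tr : S_TR := fun F n k =>
  ⟨fun h z hz hi => rk_of_trdeg ((finite_range _).union (finite_range _)) (h z hz hi),
    fun h z hz hi => Pool.Agent.Helper56.SA.trdeg_defect _ (h z hz hi)⟩

end Pool.Agent.Helper35.SL
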